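import Mathlib
import Pool.Agent.H964.LF.Stm

set_option autoImplicit false

namespace Pool.Agent.H20.LF

open Pool.Agent.H964.LF

/-- extension of a compatible family of values -/
lemma mcs {α : Type} (D : α → α → ℝ) (P : α → ℝ → Prop) (h0 : ∀ x, D x x = 0)
    (hs : ∀ x y, D x y = D y x) (ht : ∀ x y z, D x z ≤ D x y + D y z)
    (hne : ∃ x a, P x a)
    (hP : ∀ x a y b, P x a → P y b → a - b ≤ D x y) :
    ∃ u : α → ℝ, (∀ x y, |u x - u y| ≤ D x y) ∧ ∀ x a, P x a → u x = a := by
  obtain ⟨x0, a0, h00⟩ := hne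
  have hbd : ∀ x, BddBelow {r : ℝ | ∃ y b, P y b ∧ r = b + D x y} := by
    intro x
    refine ⟨a0 - D x0 x, ?_⟩
    rintro r ⟨y, b, hy, rfl⟩
    have h1 := hP x0 a0 y b h00 hy
    have h2 := ht x0 x y
    linarith
  have hnn : ∀ x, {r : ℝ | ∃ y b, P y b ∧ r = b + D x y}.Nonempty := fun x =>
    ⟨a0 + D x x0, x0, a0, h00, rfl⟩
  have hle : ∀ x y, sInf {r : ℝ | ∃ z b, P z b ∧ r = b + D x z} ≤
      sInf {r : ℝ | ∃ z b, P z b ∧ r = b + D y z} + D x y := by
    intro x y
    have : sInf {r : ℝ | ∃ z b, P z b ∧ r = b + D x z} - D x y ≤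
        sInf {r : ℝ | ∃ z b, P z b ∧ r = b + D y z} := by
      apply le_csInf (hnn y)
      rintro r ⟨z, b, hz, rfl⟩
      have h1 : sInf {r : ℝ | ∃ z b, P z b ∧ r = b + D x z} ≤ b + D x z :=
        csInf_le (hbd x) ⟨z, b, hz, rfl⟩
      have h2 := ht x y z
      linarith
    linarith
  refine ⟨fun x => sInf {r : ℝ | ∃ y b, P y b ∧ r = b + D x y}, ?_, ?_⟩
  · intro x y
    rw [abs_le]
    have h1 := hle x y
    have h2 := hle y x
    rw [hs y x] at h2
    constructor
    · show -(D x y) ≤ sInf {r : ℝ | ∃ z b, P z b ∧ r = b + D x z} -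
        sInf {r : ℝ | ∃ z b, P z b ∧ r = b + D y z}
      linarith
    · show sInf {r : ℝ | ∃ z b, P z b ∧ r = b + D x z} -
        sInf {r : ℝ | ∃ z b, P z b ∧ r = b + D y z} ≤ D x y
      linarith
  · intro x a ha
    apply le_antisymm
    · have h1 : sInf {r : ℝ | ∃ z b, P z b ∧ r = b + D x z} ≤ a + D x x :=
        csInf_le (hbd x) ⟨x, a, ha, rfl⟩
      rw [h0 x, add_zero] at h1
      exact h1
    · apply le_csInf (hnn x)
      rintro r ⟨y, b, hy, rfl⟩
      have := hP x a y b ha hy
      linarith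

/-- the correction of the profile -/
noncomputable def wz (g : ℝ) (t : ℤ) : ℝ :=
  if |g| < 1 / 8 then (if t % 4 = 2 then 1 / 2 else if t % 4 = 0 then 0 else 1 / 4) else 0

lemma wz_bd (g : ℝ) (t : ℤ) : 0 ≤ wz g t ∧ wz g t ≤ 1 / 2 := by
  unfold wz
  split_ifs <;> norm_num

lemma wz_zero (g : ℝ) (t : ℤ) (h : (4 : ℤ) ∣ t) : wz g t = 0 := by
  unfold wz
  have h1 : t % 4 = 0 := by omega
  have h2 : ¬ t % 4 = 2 := by omega
  simp [h1]

lemma wz_lip (g : ℝ) (hg : |g| < 1 / 8) (t t' : ℤ) :
    |wz g t - wz g t'| ≤ |(t : ℝ) - t'| / 4 := by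
  have hcast : |(t : ℝ) - t'| = ((|t - t'| : ℤ) : ℝ) := by push_cast; rfl
  rw [hcast]
  have hb := wz_bd g t
  have hb' := wz_bd g t'
  by_cases h2 : 2 ≤ |t - t'|
  · have : (2 : ℝ) ≤ ((|t - t'| : ℤ) : ℝ) := by exact_mod_cast h2
    rw [abs_le]
    constructor <;> linarith [hb.1, hb.2, hb'.1, hb'.2]
  · by_cases h0 : t = t'
    · subst h0; simp
    · have h1 : |t - t'| = 1 := by
        have : 0 < |t - t'| := abs_pos.mpr (sub_ne_zero.mpr h0)
        omega
      rw [h1]
      have h3 : t - t' = 1 ∨ t - t' = -1 := by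
        rcases abs_eq (by norm_num : (0 : ℤ) ≤ 1) |>.mp h1 with h | h
        · exact Or.inl h
        · exact Or.inr h
      unfold wz
      rw [if_pos hg, if_pos hg]
      have h4 : t % 4 = 0 ∨ t % 4 = 1 ∨ t % 4 = 2 ∨ t % 4 = 3 := by omega
      rcases h3 with h3 | h3 <;> rcases h4 with h4 | h4 | h4 | h4
      · have : t' % 4 = 3 := by omega
        norm_num [h4, this]
      · have : t' % 4 = 0 := by omega
        norm_num [h4, this]
      · have : t' % 4 = 1 := by omega
        norm_num [h4, this]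
      · have : t' % 4 = 2 := by omega
        norm_num [h4, this]
      · have : t' % 4 = 1 := by omega
        norm_num [h4, this]
      · have : t' % 4 = 2 := by omega
        norm_num [h4, this]
      · have : t' % 4 = 3 := by omega
        norm_num [h4, this]
      · have : t' % 4 = 0 := by omega
        norm_num [h4, this]

lemma wz_step (g : ℝ) (m : ℤ) :
    (wz g (2 * m + 1) - wz g (2 * m) + g ≥ 1 / 8 ∧
      wz g (2 * m + 2) - wz g (2 * m + 1) + g ≥ 1 / 8) ∨
    (wz g (2 * m + 1) - wz g (2 * m) + g ≤ -(1 / 8) ∧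
      wz g (2 * m + 2) - wz g (2 * m + 1) + g ≤ -(1 / 8)) := by
  unfold wz
  by_cases hg : |g| < 1 / 8
  · rw [if_pos hg, if_pos hg, if_pos hg]
    have hg' := abs_lt.mp hg
    have h4 : (2 * m) % 4 = 0 ∨ (2 * m) % 4 = 2 := by omega
    rcases h4 with h4 | h4
    · left
      have h5 : (2 * m + 1) % 4 = 1 := by omega
      have h6 : (2 * m + 2) % 4 = 2 := by omega
      norm_num [h4, h5, h6]
      linarith [hg'.1]
    · right
      have h5 : (2 * m + 1) % 4 = 3 := by omega
      have h6 : (2 * m + 2) % 4 = 0 := by omega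
      norm_num [h4, h5, h6]
      linarith [hg'.2]
  · rw [if_neg hg, if_neg hg, if_neg hg]
    rw [not_lt] at hg
    rcases le_abs.mp hg with h | h
    · left; constructor <;> linarith
    · right; constructor <;> linarith

/-- the profile on the coarse edge -/
noncomputable def Vz (b g : ℝ) (t : ℤ) : ℝ := b + t * g + wz g t

lemma Vz_lip (b g c : ℝ) (hg : |g| ≤ c) (hc : 1 / 2 ≤ c) (t t' : ℤ) :
    |Vz b g t - Vz b g t'| ≤ c * |(t : ℝ) - t'| := by
  have e : Vz b g t - Vz b g t' = ((t : ℝ) - t') * g + (wz g t - wz g t') := by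
    unfold Vz; ring
  rw [e]
  have h1 : |((t : ℝ) - t') * g + (wz g t - wz g t')| ≤
      |(t : ℝ) - t'| * |g| + |wz g t - wz g t'| := by
    rw [← abs_mul]; exact abs_add_le _ _
  have h0 : 0 ≤ |(t : ℝ) - t'| := abs_nonneg _
  by_cases h : |g| < 1 / 8
  · have h2 := wz_lip g h t t'
    nlinarith
  · have h2 : wz g t - wz g t' = 0 := by
      unfold wz; rw [if_neg h, if_neg h]; ring
    rw [h2, add_zero, abs_mul]
    rw [mul_comm c]
    exact mul_le_mul_of_nonneg_left hg h0

/-- l1 norm splits -/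
lemma l1_split {d : ℕ} (i : Fin d) (z : Fin d → ℤ) :
    l1 z = |z i| + ∑ j ∈ Finset.univ.erase i, |z j| := by
  unfold l1
  exact (Finset.add_sum_erase Finset.univ (fun j => |z j|) (Finset.mem_univ i)).symm

lemma l1_nonneg {d : ℕ} (z : Fin d → ℤ) : 0 ≤ l1 z :=
  Finset.sum_nonneg fun _ _ => abs_nonneg _

lemma l1_coord {d : ℕ} (i : Fin d) (z : Fin d → ℤ) : |z i| ≤ l1 z := by
  unfold l1
  exact Finset.single_le_sum (f := fun j => |z j|) (fun _ _ => abs_nonneg _) (Finset.mem_univ i)

lemma l1_tri {d : ℕ} (x y z : Fin d → ℤ) : l1 (x - z) ≤ l1 (x - y) + l1 (y - z) := by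
  unfold l1
  rw [← Finset.sum_add_distrib]
  apply Finset.sum_le_sum
  intro j _
  simp only [Pi.sub_apply]
  exact abs_sub_le _ _ _

lemma l1_comm {d : ℕ} (x y : Fin d → ℤ) : l1 (x - y) = l1 (y - x) := by
  unfold l1
  apply Finset.sum_congr rfl
  intro j _
  simp only [Pi.sub_apply]
  exact abs_sub_comm _ _

lemma comb (K y X0 Xe Xz w p q r m E δ0 : ℝ) (hK : 0 < K) (hy0 : 0 ≤ y) (hyK : y ≤ K)
    (hδ : 0 ≤ 1 - δ0)
    (hA : |Xz - X0| ≤ (1 - δ0) * (p + r)) (hB : |Xz - Xe| ≤ (1 - δ0) * (q + r))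
    (hc : (K - y) * p + y * q ≤ K * (m + E)) (hw0 : 0 ≤ w) (hw : w ≤ 1 / 2) :
    |Xz - (X0 + y * ((Xe - X0) / K) + w)| ≤ (1 - δ0) * (m + E + r) + 1 / 2 := by
  have hA' := abs_le.mp hA
  have hB' := abs_le.mp hB
  have e : K * (Xz - (X0 + y * ((Xe - X0) / K) + w)) =
      (K - y) * (Xz - X0) + y * (Xz - Xe) - K * w := by
    field_simp
    ring
  have h1 : (K - y) * (Xz - X0) ≤ (K - y) * ((1 - δ0) * (p + r)) :=
    mul_le_mul_of_nonneg_left hA'.2 (by linarith)
  have h1' : (K - y) * (-((1 - δ0) * (p + r))) ≤ (K - y) * (Xz - X0) :=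
    mul_le_mul_of_nonneg_left hA'.1 (by linarith)
  have h2 : y * (Xz - Xe) ≤ y * ((1 - δ0) * (q + r)) :=
    mul_le_mul_of_nonneg_left hB'.2 hy0
  have h2' : y * (-((1 - δ0) * (q + r))) ≤ y * (Xz - Xe) :=
    mul_le_mul_of_nonneg_left hB'.1 hy0
  have h3 : (1 - δ0) * ((K - y) * p + y * q) ≤ (1 - δ0) * (K * (m + E)) :=
    mul_le_mul_of_nonneg_left hc hδ
  have h4 : (K - y) * ((1 - δ0) * (p + r)) + y * ((1 - δ0) * (q + r)) ≤
      K * ((1 - δ0) * (m + E + r)) := by
    have : (K - y) * ((1 - δ0) * (p + r)) + y * ((1 - δ0) * (q + r)) =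
      (1 - δ0) * ((K - y) * p + y * q) + K * ((1 - δ0) * r) := by ring
    rw [this]
    have : K * ((1 - δ0) * (m + E + r)) = (1 - δ0) * (K * (m + E)) + K * ((1 - δ0) * r) := by
      ring
    rw [this]
    linarith
  have h5 : 0 ≤ K * w := by positivity
  have h6 : K * w ≤ K * (1 / 2) := mul_le_mul_of_nonneg_left hw hK.le
  have h7 : |K * (Xz - (X0 + y * ((Xe - X0) / K) + w))| ≤
      K * ((1 - δ0) * (m + E + r) + 1 / 2) := by
    rw [e, abs_le]
    constructor <;> nlinarith
  rw [abs_mul, abs_of_pos hK] at h7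
  exact le_of_mul_le_mul_left h7 hK

lemma rest_sub {d : ℕ} (i : Fin d) (z y : Fin d → ℤ) :
    ∑ j ∈ Finset.univ.erase i, |z j| ≤
      ∑ j ∈ Finset.univ.erase i, |(z - y) j| + ∑ j ∈ Finset.univ.erase i, |y j| := by
  rw [← Finset.sum_add_distrib]
  apply Finset.sum_le_sum
  intro j _
  simp only [Pi.sub_apply]
  have := abs_add_le (z j - y j) (y j)
  simpa using this

lemma rest_single {d : ℕ} (i : Fin d) (z : Fin d → ℤ) (t : ℤ) :
    ∑ j ∈ Finset.univ.erase i, |(z - (Pi.single i t : Fin d → ℤ)) j| =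
      ∑ j ∈ Finset.univ.erase i, |z j| := by
  apply Finset.sum_congr rfl
  intro j hj
  rw [Finset.mem_erase] at hj
  simp [Pi.single_eq_of_ne hj.1]

theorem t_RG : S_RG := by
  intro d i K R k0 δ δ0 Kp X h4 hK hδ hδ2 hδ0 hKδ hR hk0 hKp h0Kp heKp hG
  have hKr : (0 : ℝ) < K := by exact_mod_cast hK
  have hK4 : (4 : ℝ) ≤ K := by
    have : 4 ≤ K := Nat.le_of_dvd hK h4
    exact_mod_cast this
  have hδ0p : 0 < δ0 := by linarith
  have hRK : (160 : ℝ) * K ≤ R := by
    have hR0 : (0 : ℝ) ≤ R := Nat.cast_nonneg R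
    nlinarith
  have hRKn : 160 * K ≤ R := by exact_mod_cast hRK
  have hRKz : 160 * (K : ℤ) ≤ (R : ℤ) := by exact_mod_cast hRKn
  have hKz : 0 < (K : ℤ) := by exact_mod_cast hK
  have hk0z : (k0 : ℤ) ≤ (K : ℤ) := by exact_mod_cast hk0
  have h4z : (4 : ℤ) ∣ (K : ℤ) := by exact_mod_cast h4
  set e : Fin d → ℤ := Pi.single i (K : ℤ) with he
  have hbx0 : bx (R + 2) (0 : Fin d → ℤ) := by
    intro j; simp; positivity
  have hei : e i = K := by simp [he]
  have hej : ∀ j, j ≠ i → e j = 0 := fun j hj => by simp [he, Pi.single_eq_of_ne hj]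
  have hbxe : bx (R + 2) e := by
    intro j
    by_cases hj : j = i
    · subst hj; rw [hei, abs_of_pos hKz]; push_cast; linarith
    · rw [hej j hj]; simp; positivity
  have hev0 : Even (∑ j, (0 : Fin d → ℤ) j) := by simp
  have heve : Even (∑ j, e j) := by
    have : ∑ j, e j = K := by
      rw [he, Finset.sum_pi_single']
      simp
    rw [this]
    obtain ⟨c, hc⟩ := h4z
    exact ⟨2 * c, by linarith⟩
  have hl1e : ∀ z : Fin d → ℤ, l1 (z - e) = |z i - K| + ∑ j ∈ Finset.univ.erase i, |z j| := by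
    intro z
    rw [l1_split i, he, rest_single]
    simp
  set g : ℝ := (X e - X 0) / K with hg
  have hgb : |g| ≤ 1 - δ0 := by
    have h1 := (hG e 0 hbxe hbx0 heve hev0).2
    have h2 : l1 (e - 0) = K := by
      have := hl1e 0
      rw [l1_comm] at this
      rw [this]; simp
    rw [h2] at h1
    have h3 := h1 hk0z
    rw [hg, abs_div, abs_of_pos hKr, div_le_iff₀ hKr]
    exact_mod_cast h3
  have hV0 : Vz (X 0) g 0 = X 0 := by
    unfold Vz
    rw [wz_zero g 0 (dvd_zero _)]
    simp
  have hVK : Vz (X 0) g (K : ℤ) = X e := by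
    unfold Vz
    rw [wz_zero g K h4z, hg]
    push_cast
    field_simp
    ring
  have hVl : ∀ t t' : ℤ, |Vz (X 0) g t - Vz (X 0) g t'| ≤ (1 - δ) * |(t : ℝ) - t'| := by
    intro t t'
    apply Vz_lip
    · linarith
    · linarith
  have hVl2 : ∀ z y : Fin d → ℤ, |Vz (X 0) g (z i) - Vz (X 0) g (y i)| ≤
      (1 - δ) * (l1 (z - y) : ℝ) := by
    intro z y
    refine (hVl _ _).trans ?_
    apply mul_le_mul_of_nonneg_left _ (by linarith)
    have := l1_coord i (z - y)
    simp only [Pi.sub_apply] at this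
    have h2 : ((|z i - y i| : ℤ) : ℝ) ≤ (l1 (z - y) : ℝ) := by exact_mod_cast this
    push_cast at h2
    exact h2
  -- the main comparison
  have hmain : ∀ z y : Fin d → ℤ, bx (R + 2) z → Even (∑ j, z j) → (z ∈ Kp ∨ ¬ bx R z) →
      0 ≤ y i → y i ≤ K → ∑ j ∈ Finset.univ.erase i, |y j| ≤ 1 →
      |X z - Vz (X 0) g (y i)| ≤ (1 - δ) * (l1 (z - y) : ℝ) := by
    intro z y hbz hez hz hy0 hyK hyr
    by_cases hz0 : z = 0
    · subst hz0
      have := hVl2 0 y
      simp only [Pi.zero_apply] at this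
      rw [hV0] at this
      exact this
    by_cases hze : z = e
    · have := hVl2 z y
      rw [hze, hei, hVK] at this
      rw [hze]
      exact this
    -- general facts
    set r : ℤ := ∑ j ∈ Finset.univ.erase i, |z j| with hr
    have hr0 : 0 ≤ r := Finset.sum_nonneg fun _ _ => abs_nonneg _
    have hl1z : l1 (z - 0) = |z i| + r := by rw [sub_zero, l1_split i]
    have hl1z' : l1 (z - e) = |z i - K| + r := hl1e z
    have hl1y : |z i - y i| + r - 1 ≤ l1 (z - y) := by
      rw [l1_split i (z - y)]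
      have := rest_sub i z y
      simp only [Pi.sub_apply] at this ⊢
      linarith
    -- far from both ends
    have key : ((K : ℤ) ≤ |z i| + r ∧ (K : ℤ) ≤ |z i - K| + r) ∧
        (((K : ℤ) ≤ |z i - y i| + r ∧
          ((K : ℤ) - y i) * |z i| + y i * |z i - K| ≤ K * (|z i - y i| + 0)) ∨
        ((R : ℤ) - K ≤ |z i - y i| + r ∧
          ((K : ℤ) - y i) * |z i| + y i * |z i - K| ≤ K * (|z i - y i| + K))) := by
      rcases hz with hz | hz
      · -- kept site
        obtain ⟨c, hc⟩ := hKp z hz i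
        have hside : z i ≤ 0 ∨ (K : ℤ) ≤ z i := by
          rcases le_or_gt c 0 with h | h
          · left; rw [hc]; nlinarith
          · right; rw [hc]; nlinarith
        have hfar : (z i ≤ -K ∨ 2 * (K : ℤ) ≤ z i) ∨ (K : ℤ) ≤ r := by
          by_cases hall : ∀ j, j ≠ i → z j = 0
          · left
            have hc0 : c ≠ 0 := by
              rintro rfl
              apply hz0
              funext j
              by_cases hj : j = i
              · subst hj; simpa using hc
              · simpa using hall j hj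
            have hc1 : c ≠ 1 := by
              rintro rfl
              apply hze
              funext j
              by_cases hj : j = i
              · subst hj; rw [hei]; simpa using hc
              · rw [hej j hj]; exact hall j hj
            rcases lt_or_gt_of_ne hc0 with h | h
            · left; rw [hc]; nlinarith
            · right
              have : 2 ≤ c := by omega
              rw [hc]; nlinarith
          · right
            push Not at hall
            obtain ⟨j, hji, hj0⟩ := hall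
            have h1 : (K : ℤ) ≤ |z j| := by
              apply Int.le_of_dvd (abs_pos.mpr hj0)
              exact (dvd_abs _ _).mpr (hKp z hz j)
            refine h1.trans ?_
            exact Finset.single_le_sum (f := fun j => |z j|) (fun _ _ => abs_nonneg _)
              (Finset.mem_erase.mpr ⟨hji, Finset.mem_univ j⟩)
        have hA : |z i| = z i ∨ |z i| = -z i := abs_choice _
        refine ⟨?_, Or.inl ⟨?_, ?_⟩⟩
        · rcases hside with h | h
          · rw [abs_of_nonpos h, abs_of_nonpos (by linarith : z i - K ≤ 0)]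
            rcases hfar with (h' | h') | h' <;> constructor <;> linarith
          · rw [abs_of_nonneg (by linarith : 0 ≤ z i), abs_of_nonneg (by linarith : 0 ≤ z i - K)]
            rcases hfar with (h' | h') | h' <;> constructor <;> linarith
        · rcases hside with h | h
          · rw [abs_of_nonpos (by linarith : z i - y i ≤ 0)]
            rcases hfar with (h' | h') | h' <;> linarith
          · rw [abs_of_nonneg (by linarith : 0 ≤ z i - y i)]
            rcases hfar with (h' | h') | h' <;> linarith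
        · rcases hside with h | h
          · rw [abs_of_nonpos h, abs_of_nonpos (by linarith : z i - K ≤ 0),
              abs_of_nonpos (by linarith : z i - y i ≤ 0)]
            nlinarith
          · rw [abs_of_nonneg (by linarith : 0 ≤ z i), abs_of_nonneg (by linarith : 0 ≤ z i - K),
              abs_of_nonneg (by linarith : 0 ≤ z i - y i)]
            nlinarith
      · -- shell
        have hfar : (R : ℤ) + 1 ≤ |z i| ∨ (R : ℤ) + 1 ≤ r := by
          unfold bx at hz
          push Not at hz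
          obtain ⟨j, hj⟩ := hz
          by_cases hji : j = i
          · left; subst hji; omega
          · right
            have h1 : |z j| ≤ r := Finset.single_le_sum (f := fun j => |z j|)
              (fun _ _ => abs_nonneg _) (Finset.mem_erase.mpr ⟨hji, Finset.mem_univ j⟩)
            omega
        have t1 : |z i| ≤ |z i - K| + K := by
          have := abs_add_le (z i - K) K
          rw [sub_add_cancel, abs_of_pos hKz] at this
          exact this
        have t2 : |z i| ≤ |z i - y i| + y i := by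
          have := abs_add_le (z i - y i) (y i)
          rw [sub_add_cancel, abs_of_nonneg hy0] at this
          exact this
        have t3 : |z i - K| ≤ |z i - y i| + (K - y i) := by
          have := abs_add_le (z i - y i) (y i - K)
          rw [abs_of_nonpos (by linarith : y i - K ≤ 0)] at this
          have e1 : z i - y i + (y i - K) = z i - K := by ring
          rw [e1] at this
          linarith
        have a1 : 0 ≤ |z i - K| := abs_nonneg _
        have a2 : 0 ≤ |z i - y i| := abs_nonneg _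
        have a3 : 0 ≤ |z i| := abs_nonneg _
        refine ⟨?_, Or.inr ⟨?_, ?_⟩⟩
        · rcases hfar with h | h <;> constructor <;> linarith
        · rcases hfar with h | h <;> linarith
        · have m1 : ((K : ℤ) - y i) * |z i| ≤ ((K : ℤ) - y i) * (|z i - y i| + y i) :=
            mul_le_mul_of_nonneg_left t2 (by linarith)
          have m2 : y i * |z i - K| ≤ y i * (|z i - y i| + (K - y i)) :=
            mul_le_mul_of_nonneg_left t3 hy0
          nlinarith
    obtain ⟨⟨hf0, hfe⟩, hk⟩ := key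
    have hA := (hG z 0 hbz hbx0 hez hev0).2 (by rw [hl1z]; linarith)
    have hB := (hG z e hbz hbxe hez heve).2 (by rw [hl1z']; linarith)
    rw [hl1z] at hA
    rw [hl1z'] at hB
    have hw := wz_bd g (y i)
    have hy0r : (0 : ℝ) ≤ (y i : ℝ) := by exact_mod_cast hy0
    have hyKr : (y i : ℝ) ≤ K := by exact_mod_cast hyK
    have hl1yr : ((|z i - y i| : ℤ) : ℝ) + r - 1 ≤ (l1 (z - y) : ℝ) := by exact_mod_cast hl1y
    have hrr : (0 : ℝ) ≤ (r : ℝ) := by exact_mod_cast hr0
    have hmm : (0 : ℝ) ≤ ((|z i - y i| : ℤ) : ℝ) := by exact_mod_cast abs_nonneg (z i - y i)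
    push_cast at hA hB
    rcases hk with ⟨hk1, hk2⟩ | ⟨hk1, hk2⟩
    · have hk1r : (K : ℝ) ≤ ((|z i - y i| : ℤ) : ℝ) + r := by exact_mod_cast hk1
      have hk2r : ((K : ℝ) - y i) * |(z i : ℝ)| + y i * |(z i : ℝ) - K| ≤
          K * (((|z i - y i| : ℤ) : ℝ) + 0) := by exact_mod_cast hk2
      have hc := comb K (y i) (X 0) (X e) (X z) (wz g (y i)) _ _ _ _ 0 δ0 hKr hy0r hyKr
        (by linarith) hA hB hk2r hw.1 hw.2
      unfold Vz
      rw [hg]
      refine hc.trans ?_
      set M : ℝ := ((|z i - y i| : ℤ) : ℝ) + r with hM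
      have q1 : (1 - δ) * (M - 1) ≤ (1 - δ) * (l1 (z - y) : ℝ) :=
        mul_le_mul_of_nonneg_left hl1yr (by linarith)
      refine le_trans ?_ q1
      have q2 : δ0 / 2 * K ≤ (δ0 - δ) * M :=
        mul_le_mul (by linarith) hk1r hKr.le (by linarith)
      have q3 : (1 - δ0) * (((|z i - y i| : ℤ) : ℝ) + 0 + r) = (1 - δ0) * M := by
        rw [hM]; ring
      rw [q3]
      linarith
    · have hk1r : (R : ℝ) - K ≤ ((|z i - y i| : ℤ) : ℝ) + r := by exact_mod_cast hk1
      have hk2r : ((K : ℝ) - y i) * |(z i : ℝ)| + y i * |(z i : ℝ) - K| ≤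
          K * (((|z i - y i| : ℤ) : ℝ) + K) := by exact_mod_cast hk2
      have hc := comb K (y i) (X 0) (X e) (X z) (wz g (y i)) _ _ _ _ K δ0 hKr hy0r hyKr
        (by linarith) hA hB hk2r hw.1 hw.2
      unfold Vz
      rw [hg]
      refine hc.trans ?_
      set M : ℝ := ((|z i - y i| : ℤ) : ℝ) + r with hM
      have q1 : (1 - δ) * (M - 1) ≤ (1 - δ) * (l1 (z - y) : ℝ) :=
        mul_le_mul_of_nonneg_left hl1yr (by linarith)
      refine le_trans ?_ q1
      have q2 : δ0 / 2 * (R - K) ≤ (δ0 - δ) * M :=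
        mul_le_mul (by linarith) hk1r (by linarith) (by linarith)
      have q3 : (1 - δ0) * (((|z i - y i| : ℤ) : ℝ) + K + r) = (1 - δ0) * M + (1 - δ0) * K := by
        rw [hM]; ring
      rw [q3]
      have q4 : δ0 * K ≤ 1 / 8 * K := mul_le_mul_of_nonneg_right hδ0 hKr.le
      have q5 : 0 < δ0 * K := by positivity
      linarith
  -- extension
  obtain ⟨u, hu1, hu2⟩ := mcs (fun x y : Fin d → ℤ => (1 - δ) * (l1 (x - y) : ℝ))
    (fun z a => (bx (R + 2) z ∧ Even (∑ j, z j) ∧ (z ∈ Kp ∨ ¬ bx R z) ∧ a = X z) ∨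
      (0 ≤ z i ∧ z i ≤ K ∧ ∑ j ∈ Finset.univ.erase i, |z j| ≤ 1 ∧ a = Vz (X 0) g (z i)))
    (by intro x; simp [l1])
    (by intro x y; rw [l1_comm])
    (by
      intro x y z
      rw [← mul_add]
      apply mul_le_mul_of_nonneg_left _ (by linarith)
      exact_mod_cast l1_tri x y z)
    ⟨0, X 0, Or.inl ⟨hbx0, hev0, Or.inl h0Kp, rfl⟩⟩
    (by
      rintro x a y b (⟨h1, h2, h3, rfl⟩ | ⟨h1, h2, h3, rfl⟩) (⟨k1, k2, k3, rfl⟩ | ⟨k1, k2, k3, rfl⟩)
      · exact (le_abs_self _).trans (hG x y h1 k1 h2 k2).1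
      · exact (le_abs_self _).trans (hmain x y h1 h2 h3 k1 k2 k3)
      · have := hmain y x k1 k2 k3 h1 h2 h3
        rw [l1_comm, ← neg_sub]
        exact (neg_le_abs _).trans this
      · exact (le_abs_self _).trans (hVl2 x y))
  refine ⟨u, fun z z' _ _ _ _ => hu1 z z', fun z h1 h2 h3 => hu2 z _ (Or.inl ⟨h1, h2, h3, rfl⟩), ?_⟩
  intro s hs
  -- values at the neighbours
  have hsK : 2 * (s : ℤ) + 2 ≤ K := by
    obtain ⟨c, hc⟩ := h4
    omega
  set v : Fin d → ℤ := Pi.single i ((2 * s + 1 : ℕ) : ℤ) with hv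
  have hvi : v i = 2 * s + 1 := by simp [hv]
  have hvj : ∀ j, j ≠ i → v j = 0 := fun j hj => by simp [hv, Pi.single_eq_of_ne hj]
  have hup : u (nz v (i, true)) = Vz (X 0) g (2 * s + 2) := by
    have h1 : (nz v (i, true)) i = 2 * s + 2 := by
      simp [nz, hvi]; ring
    have h2 : ∑ j ∈ Finset.univ.erase i, |(nz v (i, true)) j| ≤ 1 := by
      rw [Finset.sum_eq_zero]
      · norm_num
      · intro j hj
        rw [Finset.mem_erase] at hj
        simp [nz, hvj j hj.1, Pi.single_eq_of_ne hj.1]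
    rw [hu2 _ _ (Or.inr ⟨by rw [h1]; positivity, by rw [h1]; exact hsK, h2, rfl⟩), h1]
  have hdn : u (nz v (i, false)) = Vz (X 0) g (2 * s) := by
    have h1 : (nz v (i, false)) i = 2 * s := by
      simp [nz, hvi]
    have h2 : ∑ j ∈ Finset.univ.erase i, |(nz v (i, false)) j| ≤ 1 := by
      rw [Finset.sum_eq_zero]
      · norm_num
      · intro j hj
        rw [Finset.mem_erase] at hj
        simp [nz, hvj j hj.1, Pi.single_eq_of_ne hj.1]
    rw [hu2 _ _ (Or.inr ⟨by rw [h1]; positivity, by rw [h1]; linarith, h2, rfl⟩), h1]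
  have hsd : ∀ (j : Fin d) (σ : Bool), j ≠ i → u (nz v (j, σ)) = Vz (X 0) g (2 * s + 1) := by
    intro j σ hj
    have h1 : (nz v (j, σ)) i = 2 * s + 1 := by
      cases σ <;> simp [nz, hvi, Pi.single_eq_of_ne (Ne.symm hj)]
    have h2 : ∑ j' ∈ Finset.univ.erase i, |(nz v (j, σ)) j'| ≤ 1 := by
      rw [Finset.sum_eq_single j]
      · cases σ <;> simp [nz, hvj j hj]
      · intro j' hj' hne
        rw [Finset.mem_erase] at hj'
        cases σ <;> simp [nz, hvj j' hj'.1, Pi.single_eq_of_ne hne]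
      · intro h
        exact absurd (Finset.mem_erase.mpr ⟨hj, Finset.mem_univ j⟩) h
    rw [hu2 _ _ (Or.inr ⟨by rw [h1]; positivity, by rw [h1]; linarith, h2, rfl⟩), h1]
  have hst := wz_step g s
  have d1 : Vz (X 0) g (2 * s + 1) - Vz (X 0) g (2 * s) =
      wz g (2 * s + 1) - wz g (2 * s) + g := by
    unfold Vz; push_cast; ring
  have d2 : Vz (X 0) g (2 * s + 2) - Vz (X 0) g (2 * s + 1) =
      wz g (2 * s + 2) - wz g (2 * s + 1) + g := by
    unfold Vz; push_cast; ring
  rcases hst with ⟨s1, s2⟩ | ⟨s1, s2⟩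
  · left
    constructor
    · rintro ⟨j, σ⟩ hc
      by_cases hj : j = i
      · subst hj
        cases σ
        · rw [hup, hdn]; linarith
        · exact absurd rfl hc
      · rw [hup, hsd j σ hj]; linarith
    · rintro ⟨j, σ⟩ hc
      by_cases hj : j = i
      · subst hj
        cases σ
        · exact absurd rfl hc
        · rw [hup, hdn]; linarith
      · rw [hdn, hsd j σ hj]; linarith
  · right
    constructor
    · rintro ⟨j, σ⟩ hc
      by_cases hj : j = i
      · subst hj
        cases σ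
        · exact absurd rfl hc
        · rw [hup, hdn]; linarith
      · rw [hdn, hsd j σ hj]; linarith
    · rintro ⟨j, σ⟩ hc
      by_cases hj : j = i
      · subst hj
        cases σ
        · rw [hup, hdn]; linarith
        · exact absurd rfl hc
      · rw [hup, hsd j σ hj]; linarith

end Pool.Agent.H20.LF
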